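import Pool.Agent.FSS.Fin

/-!
# Free groups of isometries of `ℚ³`: elements with few short syllables have no fixed point

`lens l` is the list of the absolute values of the exponents of the alternating product `wd a b l`,
and `short C l` is the number of those which are less than `C log n`, where `n` is their sum.
-/

set_option autoImplicit false

namespace Pool.Agent.Results.MP_a80717_al.FewShortSyllables

open Pool.Agent.FSS

/-- (1) For every `K` there are an injective homomorphism `φ` from the free group on `x, y` to the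
permutations of `ℚ³`, with isometries as values, and `C` such that every `w ≠ 1` for which `φ w` fixes
a point of `ℚ³` is conjugate to an alternating product of powers of `x` and `y` with more than `K`
short exponents, and every product of at most `K` powers of `x` and `y` which is not `1` acts without
fixed point.  (2) The group generated by two explicit screw motions `a, b`. -/
theorem result :
    (∀ K : ℕ, ∃ (φ : FreeGroup Bool →* Equiv.Perm (Fin 3 → ℚ)) (C : ℕ), Function.Injective φ ∧
      (∀ w z z', dist3 (φ w z) (φ w z') = dist3 z z') ∧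
      (∀ w, w ≠ 1 → (∃ z, φ w z = z) →
        ∃ g l, l ≠ [] ∧ (∀ q ∈ l, q.1 ≠ 0 ∧ q.2 ≠ 0) ∧
          w = g * wd (FreeGroup.of true) (FreeGroup.of false) l * g⁻¹ ∧ K < short C l) ∧
      ∀ l, 2 * l.length ≤ K → wd (FreeGroup.of true) (FreeGroup.of false) l ≠ 1 →
        ∀ z, φ (wd (FreeGroup.of true) (FreeGroup.of false) l) z ≠ z) ∧
    ∃ a b : Equiv.Perm (Fin 3 → ℚ),
      (∀ z, a z = ![z 0 + 1, (3 * z 1 - 4 * z 2) / 5, (4 * z 1 + 3 * z 2) / 5]) ∧
      (∀ z, b z = ![(3 * z 0 + 4 * z 2) / 5, z 1 + 1, (3 * z 2 - 4 * z 0) / 5]) ∧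
      (∀ z z', dist3 (a z) (a z') = dist3 z z' ∧ dist3 (b z) (b z') = dist3 z z') ∧
      Function.Injective (FreeGroup.lift fun c : Bool => if c then a else b) ∧
      (∀ K : ℕ, ∃ C : ℕ, 1 ≤ C ∧ ∀ l, l ≠ [] → (∀ q ∈ l, (C : ℤ) ≤ |q.1| ∧ (C : ℤ) ≤ |q.2|) →
        short C l ≤ K → ∀ z, wd a b l z ≠ z) ∧
      ∀ (m : ℕ) (l : List (ℤ × ℤ)), l ≠ [] → (∀ q ∈ l, (m : ℤ) ≤ |q.1| ∧ (m : ℤ) ≤ |q.2|) →
        ∀ z, wd a b l z = z → 5 ^ m ∣ (lens l).sum := by
  refine ⟨fun K => ?_, aP, bP, aP_apply, bP_apply, fun z z' => ⟨aP_mem z z', bP_mem z z'⟩, ?_,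
    few_short, dvd_of_fixed⟩
  · obtain ⟨φ, C, h1, h2, h3⟩ := main2 K
    exact ⟨Isom3.subtype.comp φ, C, Subtype.val_injective.comp h1, fun w z z' => (φ w).2 z z', h2, h3⟩
  · have h := ph_injective le_rfl
    rw [ph_one] at h
    have h2 : (FreeGroup.lift fun c : Bool => if c then aP else bP) =
        Isom3.subtype.comp (FreeGroup.lift fun c : Bool => if c then aI else bI) := by
      ext c
      cases c
      · simp [bI]
      · simp [aI]
    rw [h2]
    exact Subtype.val_injective.comp h

end Pool.Agent.Results.MP_a80717_al.FewShortSyllables
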