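import Pool.Agent.LSY.Fin

/-!
# Free groups of isometries of `ℚ³`: products with long powers of one element have no fixed point

Let `a` be a screw motion without fixed point in a free group `F` of isometries of `ℚ³`.  Products
`a ^ n₁ * s₁ * ... * a ^ nₖ * sₖ` of any number of syllables, with `sᵢ` in a fixed finite set `S ⊆ F`
of elements which do not commute with `a`, have no fixed point if all the `|nᵢ|` are larger than a
constant times the logarithm of their sum.
-/

set_option autoImplicit false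

namespace Pool.Agent.Results.MP_a80717_al.LongSyllables

/-- `g` is an orientation preserving isometry of `ℚ³`: `g x = A x + b` with `A ∈ SO₃(ℚ)`. -/
def Direct (g : Equiv.Perm (Fin 3 → ℚ)) : Prop :=
  ∃ A ∈ Matrix.specialOrthogonalGroup (Fin 3) ℚ, ∃ b : Fin 3 → ℚ, ∀ x, g x = A.mulVec x + b

/-- Let `F` be a free group of isometries (of bijections) of `ℚ³` and let `a ∈ F` be orientation
preserving and without fixed point.
(1) For every finite set `S` of orientation preserving elements of `F` which do not commute with `a`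
there is `C` such that no product `a ^ n₁ * s₁ * ... * a ^ nₖ * sₖ`, `k ≥ 1`, `sᵢ ∈ S`, with
`|nᵢ| ≥ C (1 + log (|n₁| + ... + |nₖ|))` for all `i` has a fixed point.
Let `s ∈ F` be orientation preserving and not commute with `a`.  (2) Only finitely many `a ^ n * s`
have a fixed point.  (3) For some `c > 0` and all large `N`, no reduced word `w ≠ 1` of length at most
`exp (c N)` in `a ^ N` and `s * a ^ N * s⁻¹` has a fixed point. -/
theorem result (F : Subgroup (Equiv.Perm (Fin 3 → ℚ))) (hF : IsFreeGroup F)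
    (a : Equiv.Perm (Fin 3 → ℚ)) (haF : a ∈ F) (ha : Direct a) (hfix : ∀ x, a x ≠ x) :
    (∀ S : Set (Equiv.Perm (Fin 3 → ℚ)), S.Finite →
      (∀ s ∈ S, s ∈ F ∧ Direct s ∧ a * s ≠ s * a) →
      ∃ C : ℝ, ∀ l : List (ℤ × Equiv.Perm (Fin 3 → ℚ)), l ≠ [] →
        (∀ t ∈ l, t.2 ∈ S ∧
          C * (1 + Real.log ((l.map fun t => t.1.natAbs).sum : ℕ)) ≤ (t.1.natAbs : ℝ)) →
        ∀ x, (l.map fun t => a ^ t.1 * t.2).prod x ≠ x) ∧
    ∀ s ∈ F, Direct s → a * s ≠ s * a →
      {n : ℤ | ∃ x, (a ^ n * s) x = x}.Finite ∧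
      ∃ c : ℝ, 0 < c ∧ ∃ N₀ : ℕ, ∀ N ≥ N₀, ∀ w : FreeGroup Bool, w ≠ 1 →
        (w.norm : ℝ) ≤ Real.exp (c * N) →
        ∀ x, FreeGroup.lift (fun b : Bool => if b then a ^ N else s * a ^ N * s⁻¹) w x ≠ x := by
  refine ⟨fun S hS hSF => ?_, fun s hs hsD hsa => ⟨?_, ?_⟩⟩
  · obtain ⟨C, -, hC⟩ := LSY.long_syllables F a haF ha hfix S hS hSF
    exact ⟨C, hC⟩
  · exact LSY.fin_exceptions F a haF ha hfix s hs hsD hsa
  · exact LSY.exp_length F a haF ha hfix s hs hsD hsa

end Pool.Agent.Results.MP_a80717_al.LongSyllables
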