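import Mathlib
import Pool.Agent.Lib_helper74.Iso.Act

/-!
# Free groups of isometries of `ℚ³` with few elements that have a fixed point

For every `K` there is a free group of rank two of isometries of `ℚ³` such that every non-trivial
element with a fixed point lies in `[F, F] F^K`, and its cyclically reduced length is divisible by
a number `M ≥ K`.
-/

set_option autoImplicit false

namespace Pool.Agent.Results.MP_a80717_al.RareFixedPoints

open Pool.Agent.Lib_helper74.Iso

/-- For every `K ≥ 1` there are an injective homomorphism `φ` from the free group `F` of rank two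
to the isometry group of `ℚ³` and a number `M ≥ K` such that every `w ≠ 1` in `F` for which `φ w`
fixes a point of `ℚ³` lies in `[F, F] F^K` and has a cyclic reduction of length divisible by
`M`. -/
theorem result (K : ℕ) (hK : 0 < K) : ∃ (φ : FreeGroup Bool →* Isom3) (M : ℕ), K ≤ M ∧
    Function.Injective φ ∧ ∀ w : FreeGroup Bool, w ≠ 1 →
      (∃ z : Fin 3 → ℚ, (φ w : Equiv.Perm (Fin 3 → ℚ)) z = z) →
      w ∈ commutator (FreeGroup Bool) ⊔
        Subgroup.closure (Set.range fun h : FreeGroup Bool => h ^ K) ∧
      M ∣ (FreeGroup.reduceCyclically w.toWord).length :=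
  main K hK

end Pool.Agent.Results.MP_a80717_al.RareFixedPoints
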