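import Pool.Agent.UVR.AllThm

/-!
# Free groups of isometries of `ℚ³`: rare fixed points in every group without common fixed point
-/

set_option autoImplicit false

namespace Pool.Agent.Results.MP_a80717_al.UniversalRarity

open Pool.Agent.UVR

/-- The entries of the linear part of the isometry `g` have denominators prime to `K`. -/
def LinPrime (K : ℕ) (g : Equiv.Perm (Fin 3 → ℚ)) : Prop :=
  ∀ i j : Fin 3, (g (Pi.single j 1) i - g 0 i).den.Coprime K

/-- `F` contains a free group `H` of rank two such that every element of `H` with a fixed point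
lies in `[[H, H], H] H^K`. -/
def Rare (F : Subgroup (Equiv.Perm (Fin 3 → ℚ))) (K : ℕ) : Prop :=
  ∃ H : Subgroup (Equiv.Perm (Fin 3 → ℚ)), H ≤ F ∧ Nonempty (FreeGroup (Fin 2) ≃* H) ∧
    ∀ g ∈ H, (∃ x, g x = x) → g ∈ ⁅⁅H, H⁆, H⁆ ⊔ Subgroup.closure {y | ∃ h ∈ H, y = h ^ K}

/-- Let `F` be a free non-abelian group of isometries of `ℚ³`.  The following are equivalent:
(1) `F` has no common fixed point; (2) some element of `F` has no fixed point; (3) `Rare F K` for
every `K ≥ 1` such that `F` contains two non-commuting elements whose linear parts have entries with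
denominators prime to `K`; (4) there is a finite set `E` of odd primes such that `Rare F K` for every
`K ≥ 1` which is not divisible by a prime in `E`. -/
theorem result (F : Subgroup (Equiv.Perm (Fin 3 → ℚ))) (hF : F ≤ Isom3) (hfree : IsFreeGroup F)
    (hna : ∃ a ∈ F, ∃ b ∈ F, a * b ≠ b * a) :
    List.TFAE [
      ¬ ∃ x : Fin 3 → ℚ, ∀ g ∈ F, g x = x,
      ∃ g ∈ F, ∀ x, g x ≠ x,
      ∀ K : ℕ, 1 ≤ K → (∃ a ∈ F, ∃ b ∈ F, a * b ≠ b * a ∧ LinPrime K a ∧ LinPrime K b) →
        Rare F K,
      ∃ E : Finset ℕ, (∀ q ∈ E, q.Prime ∧ Odd q) ∧ ∀ K : ℕ, 1 ≤ K → (∀ q ∈ E, ¬ q ∣ K) →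
        Rare F K] :=
  final all_thm F hF hfree hna

end Pool.Agent.Results.MP_a80717_al.UniversalRarity
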